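import Mathlib

set_option autoImplicit false

/-!
# MP_dbf4ef_co, Q1: the total curvature of the eta functional on discrete varieties

A finite graph is represented as a finite set `W` of vertices of an ambient simple graph `G`; it
stands for the subgraph of `G` induced on `W`.
-/

namespace Pool.Agent.Results.MP_dbf4ef_co.TotalCurvature

open Classical in
/-- The unit sphere `S(x)` in the subgraph of `G` induced on `W`: the neighbours of `x` in `W`. -/
noncomputable def nb {V : Type} (G : SimpleGraph V) (W : Finset V) (x : V) : Finset V :=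
  W.filter (fun y => G.Adj x y)

open Classical in
/-- The vertex sets of the nonempty complete subgraphs of the subgraph of `G` induced on `W`. -/
noncomputable def cliques {V : Type} (G : SimpleGraph V) (W : Finset V) : Finset (Finset V) :=
  W.powerset.filter (fun s => s.Nonempty ∧ G.IsClique (s : Set V))

/-- The Euler characteristic: the sum of `(-1)^k` over all complete subgraphs with `k+1` vertices. -/
noncomputable def chi {V : Type} (G : SimpleGraph V) (W : Finset V) : ℤ :=
  ∑ s ∈ cliques G W, (-1) ^ (s.card - 1)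

/-- Finite sets are adjacent if one is strictly contained in the other. -/
def containment (V : Type) : SimpleGraph (Finset V) where
  Adj s t := s ⊂ t ∨ t ⊂ s
  symm := ⟨fun _ _ h => h.symm⟩
  loopless := ⟨fun s h => by rcases h with h | h <;> exact (ssubset_irrefl s) h⟩

/-- The unit sphere of `x` in the Barycentric refinement. -/
noncomputable def sphereOne {V : Type} (G : SimpleGraph V) (W : Finset V) (x : Finset V) :
    Finset (Finset V) := nb (containment V) (cliques G W) x

/-- `η(G)`: the sum of the Euler characteristics of the unit spheres in the Barycentric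
refinement, whose vertices are the complete subgraphs. -/
noncomputable def eta {V : Type} (G : SimpleGraph V) (W : Finset V) : ℤ :=
  ∑ x ∈ cliques G W, chi (containment V) (sphereOne G W x)

open Classical in
/-- Collapsible graphs. -/
inductive Collapsible {V : Type} (G : SimpleGraph V) : Finset V → Prop
  | point (x : V) : Collapsible G {x}
  | step (W : Finset V) (x : V) (hx : x ∈ W) (h1 : Collapsible G (W.erase x))
      (h2 : Collapsible G (nb G W x)) : Collapsible G W

open Classical in
/-- `IsSphere G n W`: the graph is an `(n-1)`-sphere. -/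
def IsSphere {V : Type} (G : SimpleGraph V) : ℕ → Finset V → Prop
  | 0, W => W = ∅
  | n + 1, W => (∀ x ∈ W, IsSphere G n (nb G W x)) ∧ ∃ x ∈ W, Collapsible G (W.erase x)

/-- `IsDGraph G n W`: the graph is an `(n-1)`-graph. -/
def IsDGraph {V : Type} (G : SimpleGraph V) : ℕ → Finset V → Prop
  | 0, W => W = ∅
  | n + 1, W => ∀ x ∈ W, IsSphere G n (nb G W x)

/-- `IsVariety G n W`: the graph is an `(n-1)`-variety. -/
def IsVariety {V : Type} (G : SimpleGraph V) : ℕ → Finset V → Prop
  | 0, W => W = ∅
  | n + 1, W => ∃ Sing : Finset V, Sing ⊆ W ∧ (∀ x ∈ Sing, ∀ y ∈ Sing, ¬ G.Adj x y) ∧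
      (∀ x ∈ W, x ∉ Sing → IsDGraph G n (nb G W x)) ∧ ∀ x ∈ Sing, IsVariety G n (nb G W x)

/-! ### The reduced Euler characteristic -/

section basic

variable {V : Type} (G : SimpleGraph V)

open Classical

/-- all complete subgraphs, with the empty one -/
noncomputable def cl (W : Finset V) : Finset (Finset V) :=
  W.powerset.filter (fun s => G.IsClique (s : Set V))

noncomputable def e (W : Finset V) : ℤ := ∑ s ∈ cl G W, (-1) ^ s.card

variable {G}

lemma mem_cl {W s : Finset V} : s ∈ cl G W ↔ s ⊆ W ∧ G.IsClique (s : Set V) := by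
  simp [cl]

lemma mem_cliques {W s : Finset V} : s ∈ cliques G W ↔ s ⊆ W ∧ s.Nonempty ∧ G.IsClique (s : Set V) := by
  simp [cliques]

lemma empty_mem_cl (W : Finset V) : ∅ ∈ cl G W := by simp [mem_cl]

lemma cliques_eq (W : Finset V) : cliques G W = (cl G W).erase ∅ := by
  ext s
  rw [Finset.mem_erase, mem_cl, mem_cliques, Finset.nonempty_iff_ne_empty]
  tauto

lemma sum_cl (W : Finset V) (f : Finset V → ℤ) :
    ∑ s ∈ cl G W, f s = f ∅ + ∑ s ∈ cliques G W, f s := by
  rw [cliques_eq, Finset.add_sum_erase _ _ (empty_mem_cl W)]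

lemma neg_pow_pred {s : Finset V} (hs : s.Nonempty) : ((-1 : ℤ)) ^ (s.card - 1) = - (-1) ^ s.card := by
  have : s.card = (s.card - 1) + 1 := by
    have := Finset.card_pos.2 hs; omega
  conv_rhs => rw [this, pow_succ]
  ring

lemma chi_eq (W : Finset V) : chi G W = 1 - e G W := by
  unfold chi e
  rw [sum_cl]
  have : ∑ s ∈ cliques G W, ((-1 : ℤ)) ^ (s.card - 1) = ∑ s ∈ cliques G W, - (-1 : ℤ) ^ s.card :=
    Finset.sum_congr rfl fun s hs => neg_pow_pred (mem_cliques.1 hs).2.1
  rw [this, Finset.sum_neg_distrib]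
  simp

lemma mem_nb {W : Finset V} {x y : V} : y ∈ nb G W x ↔ y ∈ W ∧ G.Adj x y := by
  simp [nb]

/-- deletion formula -/
lemma e_erase {W : Finset V} {x : V} (hx : x ∈ W) : e G W = e G (W.erase x) - e G (nb G W x) := by
  have h1 : cl G W = cl G (W.erase x) ∪ (cl G (nb G W x)).image (insert x) := by
    ext s
    simp only [Finset.mem_union, mem_cl, Finset.mem_image]
    constructor
    · rintro ⟨h1, h2⟩
      by_cases hs : x ∈ s
      · right
        refine ⟨s.erase x, ⟨?_, ?_⟩, Finset.insert_erase hs⟩
        · intro y hy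
          rw [Finset.mem_erase] at hy
          exact mem_nb.2 ⟨h1 hy.2, h2 hs hy.2 hy.1.symm⟩
        · exact h2.subset (Finset.coe_subset.2 (Finset.erase_subset _ _))
      · left
        exact ⟨fun y hy => Finset.mem_erase.2 ⟨fun h => hs (h ▸ hy), h1 hy⟩, h2⟩
    · rintro (⟨h1, h2⟩ | ⟨t, ⟨h1, h2⟩, rfl⟩)
      · exact ⟨h1.trans (Finset.erase_subset _ _), h2⟩
      · refine ⟨?_, ?_⟩
        · intro y hy
          rw [Finset.mem_insert] at hy
          rcases hy with rfl | hy
          · exact hx
          · exact (mem_nb.1 (h1 hy)).1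
        · rw [Finset.coe_insert]
          apply h2.insert
          intro y hy _
          exact (mem_nb.1 (h1 hy)).2
  have hdis : Disjoint (cl G (W.erase x)) ((cl G (nb G W x)).image (insert x)) := by
    rw [Finset.disjoint_left]
    intro s hs hs'
    obtain ⟨t, _, rfl⟩ := Finset.mem_image.1 hs'
    have := (mem_cl.1 hs).1 (Finset.mem_insert_self x t)
    simp at this
  unfold e
  rw [h1, Finset.sum_union hdis, Finset.sum_image, sub_eq_add_neg, ← Finset.sum_neg_distrib]
  · congr 1
    apply Finset.sum_congr rfl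
    intro t ht
    have hxt : x ∉ t := by
      intro h
      have := (mem_nb.1 ((mem_cl.1 ht).1 h)).2
      exact G.loopless.irrefl x this
    rw [Finset.card_insert_of_notMem hxt, pow_succ]
    ring
  · intro t ht t' ht' h
    have hxt : ∀ u, u ∈ cl G (nb G W x) → x ∉ u := by
      intro u hu h
      have := (mem_nb.1 ((mem_cl.1 hu).1 h)).2
      exact G.loopless.irrefl x this
    have h1 := hxt t ht
    have h2 := hxt t' ht'
    rw [← Finset.erase_insert h1, ← Finset.erase_insert h2]
    rw [h]

lemma e_empty : e G ∅ = 1 := by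
  have : cl G (∅ : Finset V) = {∅} := by
    ext s
    rw [mem_cl, Finset.subset_empty, Finset.mem_singleton]
    constructor
    · exact fun h => h.1
    · rintro rfl; simp
  unfold e
  rw [this]; simp

lemma e_collapsible {W : Finset V} (h : Collapsible G W) : e G W = 0 := by
  induction h with
  | point x =>
    rw [e_erase (Finset.mem_singleton_self x)]
    have h1 : ({x} : Finset V).erase x = ∅ := by simp
    have h2 : nb G {x} x = ∅ := by
      rw [Finset.eq_empty_iff_forall_notMem]
      intro y hy
      rw [mem_nb, Finset.mem_singleton] at hy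
      obtain ⟨rfl, h⟩ := hy
      exact G.loopless.irrefl y h
    rw [h1, h2]; ring
  | step W x hx _ _ ih1 ih2 =>
    have ih1' : e G (W.erase x) = 0 := by convert ih1
    rw [e_erase hx, ih1', ih2]; ring

lemma e_sphere : ∀ (n : ℕ) (W : Finset V), IsSphere G n W → e G W = (-1) ^ n := by
  intro n
  induction n with
  | zero =>
    intro W h
    simp only [IsSphere] at h
    rw [h, e_empty]; simp
  | succ n ih =>
    intro W h
    obtain ⟨h1, x, hx, h2⟩ := h
    have h2' : e G (W.erase x) = 0 := by
      have := e_collapsible h2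
      convert this
    rw [e_erase hx, h2', ih _ (h1 x hx), pow_succ]; ring

/-! ### Links -/

/-- common neighbours of the elements of `x` -/
noncomputable def lk (W x : Finset V) : Finset V := W.filter (fun z => ∀ y ∈ x, G.Adj y z)

lemma mem_lk {W x : Finset V} {z : V} : z ∈ lk (G := G) W x ↔ z ∈ W ∧ ∀ y ∈ x, G.Adj y z := by
  simp [lk]

lemma lk_insert (W t : Finset V) (y : V) : lk (G := G) W (insert y t) = lk (G := G) (nb G W y) t := by
  ext z
  simp only [mem_lk, mem_nb, Finset.forall_mem_insert]
  tauto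

lemma lk_empty (W : Finset V) : lk (G := G) W ∅ = W := by
  ext z
  simp [mem_lk]

lemma sphere_dgraph : ∀ {n : ℕ} {W : Finset V}, IsSphere G n W → IsDGraph G n W
  | 0, _, h => h
  | _ + 1, _, h => h.1

lemma dgraph_link_aux (t : Finset V) : ∀ (n : ℕ) (W : Finset V) (y : V), IsDGraph G n W → y ∉ t →
    insert y t ∈ cl G W → ∃ m, (insert y t).card + m = n ∧ IsSphere G m (lk (G := G) W (insert y t)) := by
  induction t using Finset.induction with
  | empty =>
    intro n W y h _ hy
    have hyW : y ∈ W := (mem_cl.1 hy).1 (Finset.mem_insert_self _ _)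
    rcases n with _ | n
    · simp only [IsDGraph] at h
      rw [h] at hyW; simp at hyW
    · refine ⟨n, by simp; ring, ?_⟩
      rw [lk_insert, lk_empty]
      exact h y hyW
  | insert z t hz ih =>
    intro n W y h hyt hy
    have hyW : y ∈ W := (mem_cl.1 hy).1 (Finset.mem_insert_self _ _)
    rcases n with _ | n
    · simp only [IsDGraph] at h
      rw [h] at hyW; simp at hyW
    · have h1 : IsDGraph G n (nb G W y) := sphere_dgraph (h y hyW)
      have h2 : insert z t ∈ cl G (nb G W y) := by
        rw [mem_cl] at hy ⊢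
        refine ⟨?_, hy.2.subset (Finset.coe_subset.2 (Finset.subset_insert _ _))⟩
        intro u hu
        rw [mem_nb]
        refine ⟨hy.1 (Finset.mem_insert_of_mem hu), ?_⟩
        apply hy.2 (Finset.mem_coe.2 (Finset.mem_insert_self _ _))
          (Finset.mem_coe.2 (Finset.mem_insert_of_mem hu))
        rintro rfl
        exact hyt hu
      obtain ⟨m, h3, h4⟩ := ih n (nb G W y) z h1 hz h2
      refine ⟨m, ?_, ?_⟩
      · rw [Finset.card_insert_of_notMem hyt]; omega
      · rw [lk_insert]; exact h4

lemma dgraph_link {n : ℕ} {W x : Finset V} (h : IsDGraph G n W) (hx : x ∈ cl G W) (hne : x.Nonempty) :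
    ∃ m, x.card + m = n ∧ IsSphere G m (lk (G := G) W x) := by
  obtain ⟨y, hy⟩ := hne
  have := dgraph_link_aux (x.erase y) n W y h (Finset.notMem_erase _ _)
    (by rw [Finset.insert_erase hy]; exact hx)
  rwa [Finset.insert_erase hy] at this

/-- the alternating sum over the complete subgraphs containing `x` -/
noncomputable def st (W x : Finset V) : ℤ := ∑ y ∈ (cl G W).filter (fun y => x ⊆ y), (-1) ^ y.card

lemma st_eq {W x : Finset V} (hx : x ∈ cl G W) : st (G := G) W x = (-1) ^ x.card * e G (lk (G := G) W x) := by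
  unfold st e
  have hset : (cl G W).filter (fun y => x ⊆ y) = (cl G (lk (G := G) W x)).image (fun z => x ∪ z) := by
    ext y
    simp only [Finset.mem_filter, mem_cl, Finset.mem_image]
    constructor
    · rintro ⟨⟨h1, h2⟩, h3⟩
      refine ⟨y \ x, ⟨?_, ?_⟩, Finset.union_sdiff_of_subset h3⟩
      · intro z hz
        rw [Finset.mem_sdiff] at hz
        rw [mem_lk]
        refine ⟨h1 hz.1, fun u hu => ?_⟩
        apply h2 (h3 hu) hz.1
        rintro rfl
        exact hz.2 hu
      · exact h2.subset (Finset.coe_subset.2 Finset.sdiff_subset)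
    · rintro ⟨z, ⟨h1, h2⟩, rfl⟩
      have h3 := mem_cl.1 hx
      refine ⟨⟨?_, ?_⟩, Finset.subset_union_left⟩
      · intro u hu
        rw [Finset.mem_union] at hu
        rcases hu with hu | hu
        · exact h3.1 hu
        · exact (mem_lk.1 (h1 hu)).1
      · intro u hu v hv huv
        rw [Finset.mem_coe, Finset.mem_union] at hu hv
        rcases hu with hu | hu
        · rcases hv with hv | hv
          · exact h3.2 hu hv huv
          · exact (mem_lk.1 (h1 hv)).2 u hu
        · rcases hv with hv | hv
          · exact ((mem_lk.1 (h1 hu)).2 v hv).symm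
          · exact h2 hu hv huv
  have hdis : ∀ z ∈ cl G (lk (G := G) W x), Disjoint x z := by
    intro z hz
    rw [Finset.disjoint_left]
    intro u hu huz
    exact G.loopless.irrefl u ((mem_lk.1 ((mem_cl.1 hz).1 huz)).2 u hu)
  rw [hset, Finset.sum_image, Finset.mul_sum]
  · apply Finset.sum_congr rfl
    intro z hz
    rw [Finset.card_union_of_disjoint (hdis z hz), pow_add]
  · intro z hz z' hz' h
    have h1 := Finset.union_sdiff_cancel_left (hdis z hz)
    have h2 := Finset.union_sdiff_cancel_left (hdis z' hz')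
    rw [← h1, ← h2]
    simp only at h
    rw [h]

lemma sum_powerset {m : Finset V} (hm : m.Nonempty) : ∑ z ∈ m.powerset, (-1 : ℤ) ^ z.card = 0 := by
  rw [Finset.sum_powerset_neg_one_pow_card, if_neg hm.ne_empty]

lemma cl_subset {W x y : Finset V} (hy : y ∈ cl G W) (h : x ⊆ y) : x ∈ cl G W := by
  rw [mem_cl] at hy ⊢
  exact ⟨h.trans hy.1, hy.2.subset (Finset.coe_subset.2 h)⟩

lemma cliques_mem_cl {W x : Finset V} (hx : x ∈ cliques G W) : x ∈ cl G W := by
  rw [cliques_eq] at hx
  exact Finset.mem_of_mem_erase hx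

lemma double_count (W : Finset V) :
    ∑ x ∈ cliques G W, (-1) ^ x.card * st (G := G) W x = 1 - e G W := by
  unfold st
  simp_rw [Finset.mul_sum, Finset.sum_filter]
  rw [Finset.sum_comm]
  have h1 : ∀ y ∈ cl G W, (∑ x ∈ cliques G W, if x ⊆ y then (-1 : ℤ) ^ x.card * (-1) ^ y.card else 0) =
      (-1) ^ y.card * ((if y = ∅ then 1 else 0) - 1) := by
    intro y hy
    rw [← Finset.sum_filter]
    have : (cliques G W).filter (fun x => x ⊆ y) = y.powerset.erase ∅ := by
      ext x
      rw [Finset.mem_filter, cliques_eq, Finset.mem_erase, Finset.mem_erase, Finset.mem_powerset]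
      constructor
      · rintro ⟨⟨h1, _⟩, h2⟩; exact ⟨h1, h2⟩
      · rintro ⟨h1, h2⟩; exact ⟨⟨h1, cl_subset hy h2⟩, h2⟩
    rw [this, ← Finset.sum_mul, mul_comm]
    congr 1
    rw [← Finset.sum_powerset_neg_one_pow_card,
      ← Finset.add_sum_erase _ _ (Finset.empty_mem_powerset y)]
    simp
  rw [Finset.sum_congr rfl h1, sum_cl]
  have h2 : ∑ y ∈ cliques G W, (-1 : ℤ) ^ y.card * ((if y = ∅ then 1 else 0) - 1) =
      - ∑ y ∈ cliques G W, (-1 : ℤ) ^ y.card := by
    rw [← Finset.sum_neg_distrib]
    apply Finset.sum_congr rfl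
    intro y hy
    rw [if_neg (mem_cliques.1 hy).2.1.ne_empty]
    ring
  rw [h2]
  have h3 : e G W = 1 + ∑ y ∈ cliques G W, (-1 : ℤ) ^ y.card := by
    unfold e
    rw [sum_cl]; simp
  rw [h3]; simp

lemma sum_cliques (W : Finset V) : ∑ y ∈ cliques G W, (-1 : ℤ) ^ y.card = e G W - 1 := by
  unfold e
  rw [sum_cl]; simp

lemma dgraph_st {n : ℕ} {W x : Finset V} (h : IsDGraph G n W) (hx : x ∈ cliques G W) :
    st (G := G) W x = (-1) ^ n := by
  have hx' := cliques_mem_cl hx
  obtain ⟨m, h1, h2⟩ := dgraph_link h hx' (mem_cliques.1 hx).2.1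
  rw [st_eq hx', e_sphere m _ h2, ← pow_add, h1]

lemma dgraph_even {n : ℕ} {W : Finset V} (h : IsDGraph G n W) (hn : Even n) : e G W = 1 := by
  have h1 := double_count (G := G) W
  have h2 : ∑ x ∈ cliques G W, (-1 : ℤ) ^ x.card * st (G := G) W x =
      ∑ x ∈ cliques G W, (-1 : ℤ) ^ x.card := by
    apply Finset.sum_congr rfl
    intro x hx
    rw [dgraph_st h hx, hn.neg_one_pow, mul_one]
  rw [h2, sum_cliques] at h1
  linarith

/-! ### Varieties -/

lemma variety_nb : ∀ {n : ℕ} {W : Finset V}, IsVariety G (n + 1) W → ∀ x ∈ W, IsDGraph G n (nb G W x) := by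
  rintro n W ⟨Sing, h1, h2, h3, h4⟩ x hx
  by_cases hxs : x ∈ Sing
  · rcases n with _ | n
    · exact h4 x hxs
    · intro y hy
      rw [mem_nb] at hy
      have hyS : y ∉ Sing := fun h => h2 x hxs y h hy.2
      have h5 := h3 y hy.1 hyS x (mem_nb.2 ⟨hx, hy.2.symm⟩)
      have h6 : nb G (nb G W x) y = nb G (nb G W y) x := by
        ext z
        simp only [mem_nb]
        tauto
      rw [h6]; exact h5
  · exact h3 x hx hxs

lemma variety_st {d : ℕ} {W x : Finset V} (h : IsVariety G (d + 1) W) (hx : x ∈ cliques G W)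
    (hc : 2 ≤ x.card) : st (G := G) W x = (-1) ^ (d + 1) := by
  have hx' := cliques_mem_cl hx
  obtain ⟨y, hy⟩ := (mem_cliques.1 hx).2.1
  have hyW : y ∈ W := (mem_cliques.1 hx).1 hy
  have h1 := variety_nb h y hyW
  have h2 : x.erase y ∈ cl G (nb G W y) := by
    rw [mem_cl] at hx' ⊢
    refine ⟨?_, hx'.2.subset (Finset.coe_subset.2 (Finset.erase_subset _ _))⟩
    intro u hu
    rw [Finset.mem_erase] at hu
    exact mem_nb.2 ⟨hx'.1 hu.2, hx'.2 hy hu.2 hu.1.symm⟩
  have h3 : (x.erase y).Nonempty := by
    rw [← Finset.card_pos, Finset.card_erase_of_mem hy]; omega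
  obtain ⟨m, h4, h5⟩ := dgraph_link h1 h2 h3
  rw [← lk_insert, Finset.insert_erase hy] at h5
  rw [st_eq hx', e_sphere m _ h5, ← pow_add]
  congr 1
  rw [Finset.card_erase_of_mem hy] at h4
  omega

lemma variety_st_one {W : Finset V} {v : V} (hv : v ∈ W) : st (G := G) W {v} = - e G (nb G W v) := by
  have hx : {v} ∈ cl G W := by
    rw [mem_cl]
    refine ⟨by simpa using hv, by simp⟩
  rw [st_eq hx]
  have : lk (G := G) W {v} = nb G W v := by
    rw [← insert_empty_eq, lk_insert, lk_empty]
  rw [this]; simp

/-! ### The Barycentric refinement -/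

lemma e_rank {U : Type} (H : SimpleGraph U) (r : U → ℕ) (hr : ∀ a b, H.Adj a b → r a ≠ r b) :
    ∀ (k : ℕ) (Q : Finset U), Q.card = k →
      e H Q = 1 - ∑ m ∈ Q, e H (Q.filter (fun z => H.Adj m z ∧ r z < r m)) := by
  intro k
  induction k with
  | zero =>
    intro Q hQ
    rw [Finset.card_eq_zero] at hQ
    rw [hQ, e_empty]; simp
  | succ k ih =>
    intro Q hQ
    have hne : Q.Nonempty := by rw [← Finset.card_pos]; omega
    obtain ⟨x, hx, hmax⟩ := Finset.exists_max_image Q r hne
    have h1 := ih (Q.erase x) (by rw [Finset.card_erase_of_mem hx]; omega)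
    have h2 : ∀ m ∈ Q.erase x, e H ((Q.erase x).filter (fun z => H.Adj m z ∧ r z < r m)) =
        e H (Q.filter (fun z => H.Adj m z ∧ r z < r m)) := by
      intro m hm
      congr 1
      ext z
      rw [Finset.mem_filter, Finset.mem_filter, Finset.mem_erase]
      constructor
      · rintro ⟨⟨_, h3⟩, h4⟩; exact ⟨h3, h4⟩
      · rintro ⟨h3, h4⟩
        refine ⟨⟨?_, h3⟩, h4⟩
        rintro rfl
        have := hmax m (Finset.mem_of_mem_erase hm)
        omega
    rw [Finset.sum_congr rfl h2] at h1
    have h3 : nb H Q x = Q.filter (fun z => H.Adj x z ∧ r z < r x) := by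
      ext z
      rw [mem_nb, Finset.mem_filter]
      constructor
      · rintro ⟨h4, h5⟩
        refine ⟨h4, h5, lt_of_le_of_ne (hmax z h4) (hr x z h5).symm⟩
      · rintro ⟨h4, h5, _⟩; exact ⟨h4, h5⟩
    rw [e_erase hx, h1, h3, ← Finset.add_sum_erase _ _ hx]
    ring

lemma containment_card {s t : Finset V} (h : (containment V).Adj s t) : s.card ≠ t.card := by
  rcases h with h | h
  · exact (Finset.card_lt_card h).ne
  · exact (Finset.card_lt_card h).ne'

lemma lower_eq {s t : Finset V} : (containment V).Adj s t ∧ t.card < s.card ↔ t ⊂ s := by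
  constructor
  · rintro ⟨h | h, h2⟩
    · exact absurd (Finset.card_lt_card h) (by omega)
    · exact h
  · intro h
    exact ⟨Or.inr h, Finset.card_lt_card h⟩

lemma e_rank' (Q : Finset (Finset V)) : e (containment V) Q =
    1 - ∑ m ∈ Q, e (containment V) (Q.filter (fun z => z ⊂ m)) := by
  rw [e_rank (containment V) Finset.card (fun _ _ h => containment_card h) _ Q rfl]
  simp_rw [lower_eq]

/-- nonempty proper subsets of a complete subgraph -/
lemma sum_proper {W m : Finset V} (hm : m ∈ cliques G W) :
    ∑ z ∈ (cliques G W).filter (fun z => z ⊂ m), (-1 : ℤ) ^ z.card = -1 - (-1) ^ m.card := by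
  have hne := (mem_cliques.1 hm).2.1
  have h1 : (cliques G W).filter (fun z => z ⊂ m) = (m.powerset.erase ∅).erase m := by
    ext z
    rw [Finset.mem_filter, cliques_eq, Finset.mem_erase, Finset.mem_erase, Finset.mem_erase,
      Finset.mem_powerset, Finset.ssubset_iff_subset_ne]
    constructor
    · rintro ⟨⟨h1, _⟩, h2, h3⟩; exact ⟨h3, h1, h2⟩
    · rintro ⟨h1, h2, h3⟩; exact ⟨⟨h2, cl_subset (cliques_mem_cl hm) h3⟩, h3, h1⟩
  have h2 := sum_powerset hne
  rw [← Finset.add_sum_erase _ _ (Finset.empty_mem_powerset m),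
    ← Finset.add_sum_erase (m.powerset.erase ∅) _ (a := m)
      (Finset.mem_erase.2 ⟨hne.ne_empty, Finset.mem_powerset_self m⟩), ← h1] at h2
  simp only [Finset.card_empty, pow_zero] at h2
  linarith

lemma e_proper (W : Finset V) : ∀ (k : ℕ) (m : Finset V), m.card = k → m ∈ cliques G W →
    e (containment V) ((cliques G W).filter (fun z => z ⊂ m)) = - (-1) ^ m.card := by
  intro k
  induction k using Nat.strong_induction_on with
  | _ k ih =>
    intro m hk hm
    rw [e_rank']
    have h1 : ∀ z ∈ (cliques G W).filter (fun z => z ⊂ m),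
        e (containment V) (((cliques G W).filter (fun z => z ⊂ m)).filter (fun w => w ⊂ z)) =
          - (-1) ^ z.card := by
      intro z hz
      rw [Finset.mem_filter] at hz
      rw [← ih z.card (by rw [← hk]; exact Finset.card_lt_card hz.2) z rfl hz.1]
      congr 1
      ext w
      rw [Finset.mem_filter, Finset.mem_filter, Finset.mem_filter]
      constructor
      · rintro ⟨⟨h1, _⟩, h2⟩; exact ⟨h1, h2⟩
      · rintro ⟨h1, h2⟩; exact ⟨⟨h1, h2.trans hz.2⟩, h2⟩
    rw [Finset.sum_congr rfl h1, Finset.sum_neg_distrib, sum_proper hm]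
    ring

lemma mem_sphereOne {W x y : Finset V} : y ∈ sphereOne G W x ↔ y ∈ cliques G W ∧ (x ⊂ y ∨ y ⊂ x) := by
  rw [sphereOne, mem_nb]
  rfl

/-- alternating sum over a Boolean interval -/
lemma sum_between {W x m : Finset V} (hx : x ∈ cliques G W) (hm : m ∈ cliques G W) (h : x ⊂ m) :
    ∑ z ∈ (cliques G W).filter (fun z => x ⊂ z ∧ z ⊂ m), (-1 : ℤ) ^ z.card =
      - (-1) ^ x.card - (-1) ^ m.card := by
  have h1 : ∑ z ∈ Finset.Icc x m, (-1 : ℤ) ^ z.card = 0 := by
    rw [Finset.Icc_eq_image_powerset h.1, Finset.sum_image]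
    · have h2 : ∀ t ∈ (m \ x).powerset, (-1 : ℤ) ^ (x ∪ t).card = (-1) ^ x.card * (-1) ^ t.card := by
        intro t ht
        rw [Finset.mem_powerset] at ht
        have : Disjoint x t := Finset.disjoint_of_subset_right ht Finset.disjoint_sdiff
        rw [Finset.card_union_of_disjoint this, pow_add]
      rw [Finset.sum_congr rfl h2, ← Finset.mul_sum, sum_powerset, mul_zero]
      obtain ⟨a, ha, hax⟩ := Finset.exists_of_ssubset h
      exact ⟨a, Finset.mem_sdiff.2 ⟨ha, hax⟩⟩
    · intro t ht t' ht' htt
      rw [Finset.mem_coe, Finset.mem_powerset] at ht ht'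
      have d1 : Disjoint x t := Finset.disjoint_of_subset_right ht Finset.disjoint_sdiff
      have d2 : Disjoint x t' := Finset.disjoint_of_subset_right ht' Finset.disjoint_sdiff
      rw [← Finset.union_sdiff_cancel_left d1, ← Finset.union_sdiff_cancel_left d2]
      simp only at htt
      rw [htt]
  have h2 : (cliques G W).filter (fun z => x ⊂ z ∧ z ⊂ m) = ((Finset.Icc x m).erase x).erase m := by
    ext z
    rw [Finset.mem_filter, Finset.mem_erase, Finset.mem_erase, Finset.mem_Icc,
      Finset.ssubset_iff_subset_ne, Finset.ssubset_iff_subset_ne]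
    constructor
    · rintro ⟨_, ⟨h3, h4⟩, h5, h6⟩; exact ⟨h6, h4.symm, h3, h5⟩
    · rintro ⟨h3, h4, h5, h6⟩
      refine ⟨?_, ⟨h5, h4.symm⟩, h6, h3⟩
      rw [cliques_eq, Finset.mem_erase]
      refine ⟨?_, cl_subset (cliques_mem_cl hm) h6⟩
      rintro rfl
      have := (mem_cliques.1 hx).2.1
      rw [Finset.subset_empty] at h5
      exact this.ne_empty h5
  rw [← Finset.add_sum_erase _ _ (Finset.left_mem_Icc.2 h.1),
    ← Finset.add_sum_erase ((Finset.Icc x m).erase x) _ (a := m)
      (Finset.mem_erase.2 ⟨h.ne', Finset.right_mem_Icc.2 h.1⟩), ← h2] at h1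
  linarith

lemma e_above {W x : Finset V} (hx : x ∈ cliques G W) : ∀ (k : ℕ) (m : Finset V), m.card = k →
    m ∈ cliques G W → x ⊂ m →
    e (containment V) ((sphereOne G W x).filter (fun z => z ⊂ m)) = (-1) ^ m.card := by
  intro k
  induction k using Nat.strong_induction_on with
  | _ k ih =>
    intro m hk hm hxm
    rw [e_rank']
    have hsplit : (sphereOne G W x).filter (fun z => z ⊂ m) =
        (cliques G W).filter (fun z => z ⊂ x) ∪ (cliques G W).filter (fun z => x ⊂ z ∧ z ⊂ m) := by
      ext z
      rw [Finset.mem_filter, mem_sphereOne, Finset.mem_union, Finset.mem_filter, Finset.mem_filter]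
      constructor
      · rintro ⟨⟨h1, h2 | h2⟩, h3⟩
        · exact Or.inr ⟨h1, h2, h3⟩
        · exact Or.inl ⟨h1, h2⟩
      · rintro (⟨h1, h2⟩ | ⟨h1, h2, h3⟩)
        · exact ⟨⟨h1, Or.inr h2⟩, h2.trans hxm⟩
        · exact ⟨⟨h1, Or.inl h2⟩, h3⟩
    have hdis : Disjoint ((cliques G W).filter (fun z => z ⊂ x))
        ((cliques G W).filter (fun z => x ⊂ z ∧ z ⊂ m)) := by
      rw [Finset.disjoint_left]
      intro z h1 h2
      rw [Finset.mem_filter] at h1 h2
      exact (h1.2.trans h2.2.1).ne rfl
    have h1 : ∀ z ∈ (cliques G W).filter (fun z => z ⊂ x),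
        e (containment V) (((sphereOne G W x).filter (fun z => z ⊂ m)).filter (fun w => w ⊂ z)) =
          - (-1) ^ z.card := by
      intro z hz
      rw [Finset.mem_filter] at hz
      rw [← e_proper W _ z rfl hz.1]
      congr 1
      ext w
      rw [Finset.mem_filter, Finset.mem_filter, Finset.mem_filter, mem_sphereOne]
      constructor
      · rintro ⟨⟨⟨h1, _⟩, _⟩, h2⟩; exact ⟨h1, h2⟩
      · rintro ⟨h1, h2⟩
        exact ⟨⟨⟨h1, Or.inr (h2.trans hz.2)⟩, (h2.trans hz.2).trans hxm⟩, h2⟩
    have h2 : ∀ z ∈ (cliques G W).filter (fun z => x ⊂ z ∧ z ⊂ m),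
        e (containment V) (((sphereOne G W x).filter (fun z => z ⊂ m)).filter (fun w => w ⊂ z)) =
          (-1) ^ z.card := by
      intro z hz
      rw [Finset.mem_filter] at hz
      rw [← ih z.card (by rw [← hk]; exact Finset.card_lt_card hz.2.2) z rfl hz.1 hz.2.1]
      congr 1
      ext w
      rw [Finset.mem_filter, Finset.mem_filter, Finset.mem_filter]
      constructor
      · rintro ⟨⟨h1, _⟩, h2⟩; exact ⟨h1, h2⟩
      · rintro ⟨h1, h2⟩; exact ⟨⟨h1, h2.trans hz.2.2⟩, h2⟩
    have h3 : ∑ z ∈ (sphereOne G W x).filter (fun z => z ⊂ m),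
        e (containment V) (((sphereOne G W x).filter (fun z => z ⊂ m)).filter (fun w => w ⊂ z)) =
        -(-1 - (-1) ^ x.card) + (- (-1) ^ x.card - (-1) ^ m.card) := by
      conv_lhs => enter [1]; rw [hsplit]
      rw [Finset.sum_union hdis, Finset.sum_congr rfl h1, Finset.sum_congr rfl h2,
        Finset.sum_neg_distrib, sum_proper hx, sum_between hx hm hxm]
    rw [h3]; ring

lemma chi_sphereOne {W x : Finset V} (hx : x ∈ cliques G W) :
    chi (containment V) (sphereOne G W x) = 1 + st (G := G) W x := by
  rw [chi_eq, e_rank']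
  have hsplit : sphereOne G W x =
      (cliques G W).filter (fun z => z ⊂ x) ∪ (cliques G W).filter (fun z => x ⊂ z) := by
    ext z
    rw [mem_sphereOne, Finset.mem_union, Finset.mem_filter, Finset.mem_filter]
    tauto
  have hdis : Disjoint ((cliques G W).filter (fun z => z ⊂ x))
      ((cliques G W).filter (fun z => x ⊂ z)) := by
    rw [Finset.disjoint_left]
    intro z h1 h2
    rw [Finset.mem_filter] at h1 h2
    exact (h1.2.trans h2.2).ne rfl
  have h1 : ∀ z ∈ (cliques G W).filter (fun z => z ⊂ x),
      e (containment V) ((sphereOne G W x).filter (fun w => w ⊂ z)) = - (-1) ^ z.card := by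
    intro z hz
    rw [Finset.mem_filter] at hz
    rw [← e_proper W _ z rfl hz.1]
    congr 1
    ext w
    rw [Finset.mem_filter, Finset.mem_filter, mem_sphereOne]
    constructor
    · rintro ⟨⟨h1, _⟩, h2⟩; exact ⟨h1, h2⟩
    · rintro ⟨h1, h2⟩
      exact ⟨⟨h1, Or.inr (h2.trans hz.2)⟩, h2⟩
  have h2 : ∀ z ∈ (cliques G W).filter (fun z => x ⊂ z),
      e (containment V) ((sphereOne G W x).filter (fun w => w ⊂ z)) = (-1) ^ z.card := by
    intro z hz
    rw [Finset.mem_filter] at hz
    exact e_above hx _ z rfl hz.1 hz.2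
  have h3 : ∑ z ∈ sphereOne G W x, e (containment V) ((sphereOne G W x).filter (fun w => w ⊂ z)) =
      -(-1 - (-1) ^ x.card) + ∑ z ∈ (cliques G W).filter (fun z => x ⊂ z), (-1) ^ z.card := by
    conv_lhs => enter [1]; rw [hsplit]
    rw [Finset.sum_union hdis, Finset.sum_congr rfl h1, Finset.sum_congr rfl h2,
      Finset.sum_neg_distrib, sum_proper hx]
  rw [h3]
  have h4 : st (G := G) W x = (-1) ^ x.card +
      ∑ z ∈ (cliques G W).filter (fun z => x ⊂ z), (-1) ^ z.card := by
    unfold st
    have : (cl G W).filter (fun y => x ⊆ y) = insert x ((cliques G W).filter (fun z => x ⊂ z)) := by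
      ext z
      rw [Finset.mem_filter, Finset.mem_insert, Finset.mem_filter, cliques_eq, Finset.mem_erase]
      constructor
      · rintro ⟨h5, h6⟩
        by_cases hz : z = x
        · exact Or.inl hz
        · right
          refine ⟨⟨?_, h5⟩, Finset.ssubset_iff_subset_ne.2 ⟨h6, fun h => hz h.symm⟩⟩
          rintro rfl
          exact (mem_cliques.1 hx).2.1.ne_empty (Finset.subset_empty.1 h6)
      · rintro (rfl | ⟨⟨_, h5⟩, h6⟩)
        · exact ⟨cliques_mem_cl hx, subset_rfl⟩
        · exact ⟨h5, h6.1⟩
    rw [this, Finset.sum_insert]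
    rw [Finset.mem_filter]
    rintro ⟨_, h⟩
    exact h.ne rfl
  rw [h4]; ring

end basic

open Classical in
/-- **MP_dbf4ef_co, Q1: proved.**  Let `G` be a `d`-variety (`d ≥ 0`; the graph is the subgraph of
`G` induced on the finite vertex set `W`).  Then `η(G) = 0` if and only if `χ(S(x)) = 0` for every
vertex `x` of the Barycentric refinement.  More precisely, for even `d` all `χ(S(x))` vanish, and
for odd `d` the number `η(G)` is four times the number of complete subgraphs with an even (positive)
number of vertices. -/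
theorem result {V : Type} (G : SimpleGraph V) (W : Finset V) (d : ℕ) (h : IsVariety G (d + 1) W) :
    (eta G W = 0 ↔ ∀ x ∈ cliques G W, chi (containment V) (sphereOne G W x) = 0) ∧
    (Even d → ∀ x ∈ cliques G W, chi (containment V) (sphereOne G W x) = 0) ∧
    (Odd d → eta G W = 4 * ((cliques G W).filter (fun s => Even s.card)).card) := by
  have heven : Even d → ∀ x ∈ cliques G W, chi (containment V) (sphereOne G W x) = 0 := by
    intro hd x hx
    rw [chi_sphereOne hx]
    by_cases hc : 2 ≤ x.card
    · rw [variety_st h hx hc, pow_succ, hd.neg_one_pow]; ring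
    · have hne := (mem_cliques.1 hx).2.1
      have hc1 : x.card = 1 := by
        have := Finset.card_pos.2 hne; omega
      obtain ⟨v, rfl⟩ := Finset.card_eq_one.1 hc1
      have hv : v ∈ W := (mem_cliques.1 hx).1 (Finset.mem_singleton_self v)
      rw [variety_st_one hv, dgraph_even (variety_nb h v hv) hd]; ring
  have hodd : Odd d → eta G W = 4 * ((cliques G W).filter (fun s => Even s.card)).card := by
    intro hd
    have h2 : ∀ x ∈ cliques G W, 2 ≤ x.card → st (G := G) W x = 1 := by
      intro x hx hc
      rw [variety_st h hx hc, pow_succ, hd.neg_one_pow]; ring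
    have h3 : ∑ x ∈ cliques G W, (-1 : ℤ) ^ x.card * (st (G := G) W x + 1) = 0 := by
      have := double_count (G := G) W
      have h4 := sum_cliques (G := G) W
      simp_rw [mul_add, mul_one]
      rw [Finset.sum_add_distrib, this, h4]; ring
    have h4 : eta G W = ∑ x ∈ cliques G W, (1 + st (G := G) W x) :=
      Finset.sum_congr rfl fun x hx => chi_sphereOne hx
    have h5 : eta G W = ∑ x ∈ cliques G W, (1 + (-1 : ℤ) ^ x.card) * (1 + st (G := G) W x) := by
      have h6 : ∀ x ∈ cliques G W, (1 + (-1 : ℤ) ^ x.card) * (1 + st (G := G) W x) =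
          (1 + st (G := G) W x) + (-1 : ℤ) ^ x.card * (st (G := G) W x + 1) := by
        intro x _; ring
      rw [Finset.sum_congr rfl h6, Finset.sum_add_distrib, h3, h4]; ring
    rw [h5, Finset.card_eq_sum_ones, Finset.sum_filter]
    push_cast
    rw [Finset.mul_sum]
    apply Finset.sum_congr rfl
    intro x hx
    by_cases he : Even x.card
    · have hc : 2 ≤ x.card := by
        have := Finset.card_pos.2 (mem_cliques.1 hx).2.1
        obtain ⟨k, hk⟩ := he
        omega
      rw [if_pos he, he.neg_one_pow, h2 x hx hc]; norm_num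
    · rw [if_neg he, (Nat.not_even_iff_odd.1 he).neg_one_pow]; ring
  refine ⟨⟨?_, ?_⟩, heven, hodd⟩
  · intro h0
    rcases Nat.even_or_odd d with hd | hd
    · exact heven hd
    · have h1 := hodd hd
      rw [h0] at h1
      have h2 : ((cliques G W).filter (fun s => Even s.card)).card = 0 := by
        have : (4 : ℤ) * ((cliques G W).filter (fun s => Even s.card)).card = 0 := h1.symm
        omega
      rw [Finset.card_eq_zero, Finset.filter_eq_empty_iff] at h2
      -- there are no edges
      have hone : ∀ y ∈ cliques G W, y.card = 1 := by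
        intro y hy
        by_contra hne
        have hpos := Finset.card_pos.2 (mem_cliques.1 hy).2.1
        obtain ⟨t, hty, htc⟩ := Finset.exists_subset_card_eq (s := y) (n := 2) (by omega)
        have ht : t ∈ cliques G W := by
          rw [cliques_eq, Finset.mem_erase]
          refine ⟨?_, cl_subset (cliques_mem_cl hy) hty⟩
          rintro rfl
          simp at htc
        exact h2 ht ⟨1, by omega⟩
      intro x hx
      have hQ : sphereOne G W x = ∅ := by
        rw [Finset.eq_empty_iff_forall_notMem]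
        intro y hy
        rw [mem_sphereOne] at hy
        have h3 := hone x hx
        have h4 := hone y hy.1
        rcases hy.2 with h5 | h5
        · have := Finset.card_lt_card h5; omega
        · have := Finset.card_lt_card h5; omega
      rw [hQ, chi_eq, e_empty]; ring
  · intro h0
    exact Finset.sum_eq_zero h0

end Pool.Agent.Results.MP_dbf4ef_co.TotalCurvature
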